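import Pool.Agent.N656.NN.Tower

/-!
# The expected number of primes `n ^ n + 1`, for almost every amplitude and base

If `n ^ n + 1` is prime and `n ≥ 2`, then `n = 2 ^ (2 ^ j)`, and `n ^ n + 1` is the Fermat number
with the index `m = j + 2 ^ j`.  For real `b > 1`, `β > 0` let `W b k β j` be the `2 ^ (m + k)`-rough
part (the product, with multiplicity, of the prime factors larger than `2 ^ (m + k)`) of
`⌊β b ^ (2 ^ m)⌋ + 1`, `m = j + 2 ^ j`.  For `j ≥ 1` the number `W 2 2 1 j` is `n ^ n + 1`.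

For almost every amplitude `β` (with any fixed base) and for almost every base `b` (with the
amplitude `1`) only finitely many of these numbers are prime, and the measure of the set of the
amplitudes, or bases, for which one of them with `j ≥ J` is prime is asymptotically
`e ^ γ (log 2 / log b) (m + k) / 2 ^ m`, `m = J + 2 ^ J`, times the measure `dβ / β`, or `d (log b)`.

The first moment and pair estimates are those of `Pool/Agent/N652/FM` (helper652).
-/

set_option autoImplicit false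

namespace Pool.Agent.Results.MP_a70bdc_nt.MetricTower

open Filter Topology MeasureTheory

/-- The product, with multiplicity, of the prime factors of `n` that are larger than `z`. -/
def roughPart (z n : ℕ) : ℕ := (n.primeFactorsList.filter (fun r => z < r)).prod

/-- the index `m = j + 2 ^ j` of the Fermat number `n ^ n + 1`, `n = 2 ^ (2 ^ j)` -/
def idx (j : ℕ) : ℕ := j + 2 ^ j

/-- The `2 ^ (m + k)`-rough part of `⌊β b ^ (2 ^ m)⌋ + 1`, `m = j + 2 ^ j`. -/
noncomputable def W (b : ℝ) (k : ℕ) (β : ℝ) (j : ℕ) : ℕ :=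
  roughPart (2 ^ (idx j + k)) (⌊β * b ^ 2 ^ idx j⌋₊ + 1)

theorem result :
    -- the primes `n ^ n + 1`
    (∀ n : ℕ, 2 ≤ n → (n ^ n + 1).Prime → ∃ j : ℕ, n = 2 ^ 2 ^ j) ∧
    (∀ j : ℕ, 1 ≤ j → W 2 2 1 j = (2 ^ 2 ^ j) ^ (2 ^ 2 ^ j) + 1) ∧
    -- fixed base, almost every amplitude `β = exp u`
    (∀ (b : ℝ) (k : ℕ), 1 < b → (∀ᵐ β : ℝ, 0 < β → {j : ℕ | (W b k β j).Prime}.Finite) ∧
      ∀ s t : ℝ, s < t → Tendsto (fun J : ℕ =>
        volume.real {u : ℝ | u ∈ Set.Ioc s t ∧ ∃ j, J ≤ j ∧ (W b k (Real.exp u) j).Prime} *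
          (2 ^ idx J / (idx J + k))) atTop
        (𝓝 (Real.exp Real.eulerMascheroniConstant * (Real.log 2 / Real.log b) * (t - s)))) ∧
    -- amplitude one, almost every base `b = exp u`
    (∀ k : ℕ, (∀ᵐ b : ℝ, 1 < b → {j : ℕ | (W b k 1 j).Prime}.Finite) ∧
      ∀ s t : ℝ, 0 < s → s < t → Tendsto (fun J : ℕ =>
        volume.real {u : ℝ | u ∈ Set.Ioc s t ∧ ∃ j, J ≤ j ∧ (W (Real.exp u) k 1 j).Prime} *
          (2 ^ idx J / (idx J + k))) atTop
        (𝓝 (Real.exp Real.eulerMascheroniConstant * Real.log 2 * (Real.log t - Real.log s)))) :=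
  ⟨fun _ hn hp => Pool.Agent.N656.NN.tower_of_prime hn hp,
    fun _ hj => Pool.Agent.N656.NN.WF_tower hj,
    fun _ k hb => ⟨Pool.Agent.N656.NN.amp_finite hb k,
      fun _ _ hst => Pool.Agent.N656.NN.amp_measure hb k hst⟩,
    fun k => ⟨Pool.Agent.N656.NN.base_finite k,
      fun _ _ hs hst => Pool.Agent.N656.NN.base_measure k hs hst⟩⟩

end Pool.Agent.Results.MP_a70bdc_nt.MetricTower
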